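import Mathlib
import Pool.Agent.Helper921_LeafSpaces.Line

/-!
# Q2: the triples of leaf spaces two of whose members are the real line

Let `Λ` be a (possibly non-Hausdorff) simply connected `1`-manifold. The ordered triples
`(ℝ, ℝ, Λ)`, `(ℝ, Λ, ℝ)`, `(Λ, ℝ, ℝ)` are realized by three pairwise transverse foliations of the
plane if and only if `Λ` does not contain three pairwise disjoint bent half-spaces.

The theorem for `(ℝ, ℝ, Λ)` is in the starting library (`Pool/Agent/Helper921_LeafSpaces/Line.lean`,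
`realizedTriple_real_real_iff`); it was not handed in (the hand-in of the starting files on this
page is on pairs, that is, on Q1).
-/

set_option autoImplicit false

namespace Pool.Agent.Results.MP_a3f59c_gt.TriplesWithTwoLines

open Pool.Agent.Helper921_LeafSpaces

/-- transversality is symmetric -/
theorem symm {F G : Setoid Plane} (h : AreTransverse F G) : AreTransverse G F := by
  intro p
  obtain ⟨U, φ, hU, hp, h1, h2⟩ := h p
  exact ⟨U, φ.trans (Homeomorph.prodComm _ _), hU, hp, h2, h1⟩

/-- exchange of the second and the third member -/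
theorem swap23 {A B C : Type} [TopologicalSpace A] [TopologicalSpace B] [TopologicalSpace C]
    (h : RealizedTriple A B C) : RealizedTriple A C B := by
  obtain ⟨F₁, F₂, F₃, h1, h2, h3, h12, h13, h23, e1, e2, e3⟩ := h
  exact ⟨F₁, F₃, F₂, h1, h3, h2, h13, h12, symm h23, e1, e3, e2⟩

/-- exchange of the first and the second member -/
theorem swap12 {A B C : Type} [TopologicalSpace A] [TopologicalSpace B] [TopologicalSpace C]
    (h : RealizedTriple A B C) : RealizedTriple B A C := by
  obtain ⟨F₁, F₂, F₃, h1, h2, h3, h12, h13, h23, e1, e2, e3⟩ := h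
  exact ⟨F₂, F₁, F₃, h2, h1, h3, symm h12, h23, h13, e2, e1, e3⟩

/-- **Classification of the realized triples with two Hausdorff members.** -/
theorem result {Λ : Type} [TopologicalSpace Λ] [SimplyConnectedSpace Λ]
    (hΛ : IsOneManifold Λ) :
    (RealizedTriple ℝ ℝ Λ ↔ ¬ ∃ H : Fin 3 → Set Λ, (∀ i, IsBentHalfSpace (H i)) ∧
      ∀ i j, i ≠ j → Disjoint (H i) (H j)) ∧
    (RealizedTriple ℝ Λ ℝ ↔ ¬ ∃ H : Fin 3 → Set Λ, (∀ i, IsBentHalfSpace (H i)) ∧
      ∀ i j, i ≠ j → Disjoint (H i) (H j)) ∧
    (RealizedTriple Λ ℝ ℝ ↔ ¬ ∃ H : Fin 3 → Set Λ, (∀ i, IsBentHalfSpace (H i)) ∧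
      ∀ i j, i ≠ j → Disjoint (H i) (H j)) := by
  have h := realizedTriple_real_real_iff hΛ
  refine ⟨h, ?_, ?_⟩
  · rw [← h]
    exact ⟨swap23, swap23⟩
  · rw [← h]
    exact ⟨fun k => swap23 (swap12 k), fun k => swap12 (swap23 k)⟩

end Pool.Agent.Results.MP_a3f59c_gt.TriplesWithTwoLines
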